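import Pool.Agent.Lib.MP_3ec6ae_nt.Det

set_option autoImplicit false

namespace Pool.Agent.Results.MP_3ec6ae_nt.VanishingDeterminants

/-- For every positive integer `n ≡ 1 (mod 4)` with `(n/7) = -1`, both determinants
`{42,-7}_n` and `{21,112}_n` vanish. Here `{c,d}_n` is the determinant of the matrix of Jacobi
symbols `((j² + c j k + d k²)/n)` with `1 < j, k < n - 1`. -/
theorem result (n : ℕ) (h4 : n % 4 = 1) (h7 : jacobiSym (n : ℤ) 7 = -1) :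
    Matrix.det (Matrix.of fun j k : Finset.Ioo 1 (n - 1) =>
      jacobiSym (((j : ℕ) : ℤ) ^ 2 + 42 * ((j : ℕ) : ℤ) * ((k : ℕ) : ℤ)
        + (-7) * ((k : ℕ) : ℤ) ^ 2) n) = 0 ∧
    Matrix.det (Matrix.of fun j k : Finset.Ioo 1 (n - 1) =>
      jacobiSym (((j : ℕ) : ℤ) ^ 2 + 21 * ((j : ℕ) : ℤ) * ((k : ℕ) : ℤ)
        + 112 * ((k : ℕ) : ℤ) ^ 2) n) = 0 :=
  Pool.Agent.Lib.MP_3ec6ae_nt.main n h4 h7

end Pool.Agent.Results.MP_3ec6ae_nt.VanishingDeterminants
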